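import Pool.Agent.H29.BH.Targets2
import Pool.Agent.H69.BH.P_WB

/-!
# A lower bound for the product of the class number and the regulator
-/

set_option autoImplicit false

open NumberField NumberField.InfinitePlace NumberField.Units
  NumberField.Units.dirichletUnitTheorem MeasureTheory Set Filter Complex
open scoped nonZeroDivisors ENNReal Topology

namespace Pool.Agent.H54.BHR

open Pool.Agent.H25.HK Pool.Agent.H23.LB Pool.Agent.H23.LC Pool.Agent.H29.DW
open Pool.Agent.H28.RC (Rep ft idl)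
open Pool.Agent.H29.TC (dvs)
open Pool.Agent.H29.BH

private theorem psi_le {K : Type} [Field K] [NumberField K] {f : Ideal (𝓞 K)} (χ : HG K f)
    (I : Ideal (𝓞 K)) : ‖χ.ψ I‖ ≤ 1 := by
  by_cases h : I ⊔ f = ⊤
  · by_cases h2 : I = ⊥
    · rw [h2, χ.map_bot]
      simp
    · exact (χ.norm_one I h2 h).le
  · rw [χ.eq_zero I h]
    simp

private theorem prod_const_mult (K : Type) [Field K] [NumberField K] (a : ℝ) :
    ∏ v : InfinitePlace K, a ^ v.mult = a ^ Module.finrank ℚ K := by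
  rw [Finset.prod_pow_eq_pow_sum, InfinitePlace.sum_mult_eq]

private theorem PK_le (hPK : A_PK) {K : Type} [Field K] [NumberField K]
    (w : InfinitePlace K → ℂ) : 0 ≤ PK w ∧ PK w ≤ 1 := by
  unfold PK
  refine ⟨Finset.prod_nonneg fun v _ => ENNReal.toReal_nonneg, ?_⟩
  refine Finset.prod_le_one (fun v _ => ENNReal.toReal_nonneg) fun v _ => ?_
  have h := hPK.2.1 (rv v) (w v)
  have := ENNReal.toReal_mono ENNReal.one_ne_top h
  simpa using this

private theorem PK_ne (hPK : A_PK) {K : Type} [Field K] [NumberField K]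
    {w : InfinitePlace K → ℂ} (h : PK w ≠ 0) (v : InfinitePlace K) :
    7 / 8 ≤ ‖w v‖ ∧ ‖w v‖ ≤ 17 / 8 := by
  refine hPK.2.2.1 (rv v) (w v) ?_
  intro h0
  apply h
  unfold PK
  refine Finset.prod_eq_zero (Finset.mem_univ v) ?_
  rw [h0]
  simp

/-- the cut off function -/
private noncomputable def vv (x : ℝ) : ℂ := if x ≤ 1 then 1 else 0

private theorem vv_le (x : ℝ) : ‖vv x‖ ≤ 1 := by
  unfold vv
  split <;> simp

private theorem inner (hNB : K_NB) (hNV : K_NV) (hPK : A_PK) (n : ℕ) (hn : 0 < n) :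
    ∃ C : ℝ, 0 < C ∧ ∀ (K : Type) [Field K] [NumberField K], Module.finrank ℚ K = n →
      ∀ (f : Ideal (𝓞 K)) (χ : HG K f) (M : FI K), M ≠ 0 → ∀ (z : logSpace K) (τ : ℝ),
      ENNReal.ofReal ‖∑' x : {x : K // x ∈ M ∧ x ≠ 0}, χ.ψ (idl K M x) *
        vv (Ideal.absNorm (idl K M x)) *
          (Ideal.absNorm (idl K M x.1) : ℂ) ^ (-((0 : ℝ) * I : ℂ)) *
            ((PK (sy (yM K M τ z) x.1) : ℝ) : ℂ)‖ ≤
        (Icc (-(n : ℝ)) n).indicator (fun _ => ENNReal.ofReal C) τ := by
  obtain ⟨C, hC, hNB'⟩ := hNB n hn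
  refine ⟨C * (17 / 8) ^ n * Real.exp n, by positivity, ?_⟩
  intro K _ _ hK f χ M hM z τ
  obtain ⟨hfin, hcard⟩ := hNB' K hK M (yM K M τ z) (fun _ => 17 / 8) hM (fun _ => by norm_num)
  obtain ⟨hb0, hnvb, hge, -, -, hbt⟩ := hNV K M (yM K M τ z) hM
  rw [hbt τ z] at hcard hnvb hge
  rw [prod_const_mult, hK] at hcard
  set F : {x : K // x ∈ M ∧ x ≠ 0} → ℂ := fun x => χ.ψ (idl K M x) *
        vv (Ideal.absNorm (idl K M x)) *
          (Ideal.absNorm (idl K M x.1) : ℂ) ^ (-((0 : ℝ) * I : ℂ)) *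
            ((PK (sy (yM K M τ z) x.1) : ℝ) : ℂ) with hF
  have hne : ∀ x, F x ≠ 0 → (∀ v, 7 / 8 ≤ ‖sy (yM K M τ z) x.1 v‖ ∧
      ‖sy (yM K M τ z) x.1 v‖ ≤ 17 / 8) ∧ Nf K (idl K M x.1) ≤ 1 := by
    intro x hx
    rw [hF] at hx
    have h1 := right_ne_zero_of_mul hx
    have h2 := right_ne_zero_of_mul (left_ne_zero_of_mul (left_ne_zero_of_mul hx))
    refine ⟨fun v => PK_ne hPK (by exact_mod_cast h1) v, ?_⟩
    by_contra h3
    apply h2
    unfold Nf at h3
    unfold vv
    rw [if_neg h3]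
  have hF1 : ∀ x, ‖F x‖ ≤ 1 := by
    intro x
    rw [hF]
    simp only [norm_mul]
    have e1 := psi_le χ (idl K M x.1)
    have e2 := vv_le (Ideal.absNorm (idl K M x.1))
    have e3 : ‖(Ideal.absNorm (idl K M x.1) : ℂ) ^ (-((0 : ℝ) * I : ℂ))‖ ≤ 1 := by simp
    have e4 : ‖((PK (sy (yM K M τ z) x.1) : ℝ) : ℂ)‖ ≤ 1 := by
      rw [Complex.norm_real, Real.norm_eq_abs, abs_of_nonneg (PK_le hPK _).1]
      exact (PK_le hPK _).2
    exact mul_le_one₀ (mul_le_one₀ (mul_le_one₀ e1 (norm_nonneg _) e2) (norm_nonneg _) e3)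
      (norm_nonneg _) e4
  by_cases hall : ∀ x, F x = 0
  · have : ∑' x, F x = 0 := by
      rw [tsum_congr hall]
      exact tsum_zero
    rw [this]
    simp
  · push_neg at hall
    obtain ⟨x₀, hx₀⟩ := hall
    obtain ⟨hv, hN⟩ := hne x₀ hx₀
    have hnv1 : (7 / 8 : ℝ) ^ n ≤ nv (yM K M τ z) x₀.1 := by
      unfold nv
      rw [← hK, ← prod_const_mult K]
      exact Finset.prod_le_prod (fun v _ => by positivity) fun v _ =>
        pow_le_pow_left₀ (by norm_num) (hv v).1 _
    have hnv2 : nv (yM K M τ z) x₀.1 ≤ (17 / 8 : ℝ) ^ n := by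
      unfold nv
      rw [← hK, ← prod_const_mult K]
      exact Finset.prod_le_prod (fun v _ => by positivity) fun v _ =>
        pow_le_pow_left₀ (norm_nonneg _) (hv v).2 _
    have h1 := hnvb x₀.1 x₀.2.1
    have h2 := hge x₀.1 x₀.2.1 x₀.2.2
    have hτ : τ ∈ Icc (-(n : ℝ)) n := by
      have ex := Real.exp_pos (-τ)
      constructor
      · -- `exp (-τ) ≤ (8 / 7) ^ n ≤ exp n`
        have h3 : (7 / 8 : ℝ) ^ n * Real.exp (-τ) ≤ 1 := by
          calc _ ≤ nv (yM K M τ z) x₀.1 * Real.exp (-τ) := by gcongr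
            _ ≤ 1 := by rw [h1]; exact hN
        have h4 : Real.exp (-(n : ℝ)) ≤ (7 / 8 : ℝ) ^ n := by
          rw [show -(n : ℝ) = n * (-1) by ring, Real.exp_nat_mul]
          refine pow_le_pow_left₀ (Real.exp_pos _).le ?_ _
          have := Real.exp_neg_one_lt_d9
          linarith
        have h5 : Real.exp (-(n : ℝ)) * Real.exp (-τ) ≤ 1 := by
          calc _ ≤ (7 / 8 : ℝ) ^ n * Real.exp (-τ) := by gcongr
            _ ≤ 1 := h3
        rw [← Real.exp_add, Real.exp_le_one_iff] at h5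
        linarith
      · have h3 : 1 ≤ (17 / 8 : ℝ) ^ n * Real.exp (-τ) := by
          calc 1 ≤ nv (yM K M τ z) x₀.1 * Real.exp (-τ) := h2
            _ ≤ _ := by gcongr
        have h4 : (17 / 8 : ℝ) ^ n ≤ Real.exp n := by
          rw [show (n : ℝ) = n * 1 by ring, Real.exp_nat_mul]
          refine pow_le_pow_left₀ (by norm_num) ?_ _
          have := Real.exp_one_gt_d9
          linarith
        have h5 : 1 ≤ Real.exp n * Real.exp (-τ) := by
          calc 1 ≤ (17 / 8 : ℝ) ^ n * Real.exp (-τ) := h3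
            _ ≤ _ := by gcongr
        rw [← Real.exp_add] at h5
        have := Real.one_le_exp_iff.1 h5
        linarith
    rw [indicator_of_mem hτ]
    refine ENNReal.ofReal_le_ofReal ?_
    set S : Set K := {h : K | h ∈ M ∧ h ≠ 0 ∧ ∀ v, ‖sy (yM K M τ z) h v‖ ≤ 17 / 8} with hS
    have hfin2 : {x : {x : K // x ∈ M ∧ x ≠ 0} | x.1 ∈ S}.Finite :=
      hfin.preimage (Subtype.val_injective.injOn)
    have hts : ∑' x, F x = ∑ x ∈ hfin2.toFinset, F x := by
      refine tsum_eq_sum fun x hx => ?_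
      by_contra hne'
      apply hx
      rw [Set.Finite.mem_toFinset]
      exact ⟨x.2.1, x.2.2, fun v => ((hne x hne').1 v).2⟩
    rw [hts]
    have hc2 : (hfin2.toFinset.card : ℝ) ≤ S.ncard := by
      classical
      have : hfin2.toFinset.card ≤ S.ncard := by
        rw [← Finset.card_image_of_injective _ Subtype.val_injective,
          Set.ncard_eq_toFinset_card S hfin]
        refine Finset.card_le_card fun y hy => ?_
        rw [Finset.mem_image] at hy
        obtain ⟨x, hx, rfl⟩ := hy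
        rw [Set.Finite.mem_toFinset] at hx ⊢
        exact hx
      exact_mod_cast this
    calc ‖∑ x ∈ hfin2.toFinset, F x‖ ≤ ∑ x ∈ hfin2.toFinset, (1 : ℝ) :=
          (norm_sum_le _ _).trans (Finset.sum_le_sum fun x _ => hF1 x)
      _ = hfin2.toFinset.card := by simp
      _ ≤ C * (17 / 8) ^ n * Real.exp (-τ) := hc2.trans hcard
      _ ≤ C * (17 / 8) ^ n * Real.exp n := by
          refine mul_le_mul_of_nonneg_left (Real.exp_le_exp.2 ?_) (by positivity)
          linarith [hτ.1]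

open scoped Classical in
/-- a lower bound for the product of the class number and the regulator -/
theorem hR_lower (hUR : P_UR) (hNB : K_NB) (hNV : K_NV) (hPK : A_PK) (hRR : T_RR) :
    ∀ n : ℕ, 0 < n → ∃ c : ℝ, 0 < c ∧ ∀ (K : Type) [Field K] [NumberField K],
      Module.finrank ℚ K = n → ∀ (f : Ideal (𝓞 K)), f ≠ ⊥ → ∀ (_ : HG K f) (ι : Type)
      [Fintype ι] (M : ι → FI K), Reps K M → c ≤ classNumber K * regulator K := by
  intro n hn
  obtain ⟨C, hC, hin⟩ := inner hNB hNV hPK n hn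
  obtain ⟨C', hC', hur⟩ := hUR n hn
  refine ⟨(C' * (C * (2 * n)))⁻¹, by positivity, ?_⟩
  intro K _ _ hK f hf χ ι _ M hM
  have h1 := hur K hK f hf χ ι M hM 0 vv ⟨1, fun x hx => by
    unfold vv
    split_ifs with h
    · have : x = 1 := le_antisymm h hx
      rw [this]
      simp
    · simp only [norm_zero]
      positivity⟩
  have hlhs : ∑' J : NZI K, χ.ψ J.1 * vv (Ideal.absNorm J.1) *
      (Ideal.absNorm J.1 : ℂ) ^ (-((0 : ℝ) * I : ℂ)) = 1 := by
    rw [tsum_eq_single (⟨⊤, by exact top_ne_bot⟩ : NZI K)]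
    · simp [vv, χ.map_top]
    · intro J hJ
      have hne : Ideal.absNorm J.1 ≠ 1 := by
        intro h
        rw [Ideal.absNorm_eq_one_iff] at h
        exact hJ (Subtype.ext h)
      have h0 : Ideal.absNorm J.1 ≠ 0 := by
        intro h
        rw [Ideal.absNorm_eq_zero_iff] at h
        exact J.2 h
      have h2 : ¬ ((Ideal.absNorm J.1 : ℝ) ≤ 1) := by
        intro h
        have : Ideal.absNorm J.1 ≤ 1 := by exact_mod_cast h
        omega
      unfold vv
      rw [if_neg h2]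
      simp
  rw [hlhs, norm_one, ENNReal.ofReal_one] at h1
  have h2 : ∑ c, ∫⁻ z in Fd K, ∫⁻ τ : ℝ,
      ENNReal.ofReal ‖∑' x : {x : K // x ∈ M c ∧ x ≠ 0}, χ.ψ (idl K (M c) x) *
        vv (Ideal.absNorm (idl K (M c) x)) *
          (Ideal.absNorm (idl K (M c) x.1) : ℂ) ^ (-((0 : ℝ) * I : ℂ)) *
            ((PK (sy (yM K (M c) τ z) x.1) : ℝ) : ℂ)‖ ≤
      ENNReal.ofReal (classNumber K * regulator K * (C * (2 * n))) := by
    calc _ ≤ ∑ _c : ι, ∫⁻ z in Fd K, ENNReal.ofReal (C * (2 * n)) := by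
          refine Finset.sum_le_sum fun c _ => lintegral_mono fun z => ?_
          calc _ ≤ ∫⁻ τ : ℝ, (Icc (-(n : ℝ)) n).indicator (fun _ => ENNReal.ofReal C) τ :=
                lintegral_mono fun τ => hin K hK f χ (M c) (hM.1 c) z τ
            _ = _ := by
                rw [lintegral_indicator_const measurableSet_Icc, Real.volume_Icc,
                  ← ENNReal.ofReal_mul hC.le]
                congr 2
                ring
      _ = _ := by
          have hc : (Fintype.card ι : ℝ≥0∞) = ENNReal.ofReal (classNumber K) := by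
            rw [(hRR K ι M hM).2.2, ENNReal.ofReal_natCast]
          have hreg : 0 ≤ regulator K := (regulator_pos K).le
          rw [Finset.sum_const, Finset.card_univ, nsmul_eq_mul, setLIntegral_const,
            Pool.Agent.H69.BH.WB.vol_Fd', hc, ← ENNReal.ofReal_mul (by positivity),
            ← ENNReal.ofReal_mul (by positivity)]
          congr 1
          ring
  have h3 : (1 : ℝ≥0∞) ≤
      ENNReal.ofReal (C' * (classNumber K * regulator K * (C * (2 * n)))) := by
    refine h1.trans ?_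
    rw [ENNReal.ofReal_mul (by linarith)]
    gcongr
  rw [← ENNReal.ofReal_one] at h3
  have hreg : 0 < regulator K := regulator_pos K
  have hcl : 0 < (classNumber K : ℝ) := by
    exact_mod_cast Nat.pos_of_ne_zero (classNumber_ne_zero K)
  have h4 : (1 : ℝ) ≤ C' * (classNumber K * regulator K * (C * (2 * n))) :=
    (ENNReal.ofReal_le_ofReal_iff (by positivity)).1 h3
  rw [inv_le_iff_one_le_mul₀ (by positivity)]
  linarith

end Pool.Agent.H54.BHR
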