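import Pool.Agent.H29.BH.Targets3

/-!
# The bound for one window: elementary parts
-/

set_option autoImplicit false

open Set Filter
open scoped ENNReal

namespace Pool.Agent.H54.BHR

/-- absorption of constants and small powers -/
theorem absorb {C C₀ Z u e e₁ : ℝ} (hC : 0 ≤ C) (hCC : C ^ 2 ≤ C₀) (hC₀ : 1 ≤ C₀) (hZ : 1 ≤ Z)
    (hu : 0 ≤ u) (huZ : u ≤ C₀ ^ 5 * Z ^ 3) (he : 0 < e) (he2 : 10 * e ≤ 1) (he3 : 3 * e ≤ e₁) :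
    C * u ^ e ≤ C₀ * Z ^ e₁ := by
  have h1 : u ^ e ≤ (C₀ ^ 5 * Z ^ 3) ^ e := Real.rpow_le_rpow hu huZ he.le
  have h2 : (C₀ ^ 5 * Z ^ 3) ^ e = C₀ ^ (5 * e) * Z ^ (3 * e) := by
    rw [Real.mul_rpow (by positivity) (by positivity), ← Real.rpow_natCast, ← Real.rpow_natCast,
      ← Real.rpow_mul (by linarith), ← Real.rpow_mul (by linarith)]
    norm_num
  have h3 : C ≤ C₀ ^ (1 / 2 : ℝ) := by
    rw [← Real.sqrt_eq_rpow]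
    exact Real.le_sqrt_of_sq_le hCC
  have h4 : C₀ ^ (5 * e) ≤ C₀ ^ (1 / 2 : ℝ) :=
    Real.rpow_le_rpow_of_exponent_le hC₀ (by linarith)
  have h5 : Z ^ (3 * e) ≤ Z ^ e₁ := Real.rpow_le_rpow_of_exponent_le hZ he3
  have h6 : C₀ ^ (1 / 2 : ℝ) * C₀ ^ (1 / 2 : ℝ) = C₀ := by
    rw [← Real.rpow_add (by linarith)]
    norm_num
  have hC0 : 0 < C₀ := by linarith
  have hZ0 : 0 < Z := by linarith
  calc C * u ^ e ≤ C₀ ^ (1 / 2 : ℝ) * (C₀ ^ (5 * e) * Z ^ (3 * e)) := by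
        rw [← h2]
        exact mul_le_mul h3 h1 (by positivity) (by positivity)
    _ ≤ C₀ ^ (1 / 2 : ℝ) * (C₀ ^ (1 / 2 : ℝ) * Z ^ e₁) := by gcongr
    _ = C₀ * Z ^ e₁ := by rw [← mul_assoc, h6]

/-- the dyadic classes -/
theorem dyadic {G : ℝ≥0∞} {T : ℝ} (hG : 1 ≤ G) (hT : 1 ≤ T) (hGT : G ≤ ENNReal.ofReal T) :
    ∃ i ∈ Finset.range (Nat.log 2 ⌊T⌋₊ + 1), ENNReal.ofReal ((2 : ℝ) ^ i) ≤ G ∧
      G < ENNReal.ofReal (2 * (2 : ℝ) ^ i) := by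
  have hne : G ≠ ∞ := (hGT.trans_lt ENNReal.ofReal_lt_top).ne
  obtain ⟨x, hx⟩ : ∃ x : ℝ, x = G.toReal := ⟨_, rfl⟩
  have hGx : G = ENNReal.ofReal x := by rw [hx, ENNReal.ofReal_toReal hne]
  have hx1 : 1 ≤ x := by
    rw [hx]
    have := ENNReal.toReal_mono hne hG
    simpa using this
  have hxT : x ≤ T := by
    rw [hx]
    exact ENNReal.toReal_le_of_le_ofReal (by linarith) hGT
  have hfl : ⌊x⌋₊ ≠ 0 := by
    have : 1 ≤ ⌊x⌋₊ := Nat.le_floor (by exact_mod_cast hx1)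
    omega
  refine ⟨Nat.log 2 ⌊x⌋₊, ?_, ?_, ?_⟩
  · rw [Finset.mem_range, Nat.lt_succ_iff]
    exact Nat.log_mono_right (Nat.floor_le_floor hxT)
  · rw [hGx]
    refine ENNReal.ofReal_le_ofReal ?_
    have h1 : (2 : ℕ) ^ Nat.log 2 ⌊x⌋₊ ≤ ⌊x⌋₊ := Nat.pow_log_le_self 2 hfl
    have h2 : ((2 : ℝ)) ^ Nat.log 2 ⌊x⌋₊ ≤ ⌊x⌋₊ := by exact_mod_cast h1
    exact h2.trans (Nat.floor_le (by linarith))
  · rw [hGx]
    refine (ENNReal.ofReal_lt_ofReal_iff (by positivity)).2 ?_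
    have h1 : ⌊x⌋₊ < (2 : ℕ) ^ (Nat.log 2 ⌊x⌋₊ + 1) := Nat.lt_pow_succ_log_self (by norm_num) _
    have h2 : (⌊x⌋₊ : ℝ) + 1 ≤ (2 : ℝ) ^ (Nat.log 2 ⌊x⌋₊ + 1) := by exact_mod_cast h1
    have h3 := Nat.lt_floor_add_one x
    rw [pow_succ] at h2
    linarith

/-- the size of the classes -/
theorem pow_le_of_mem {T : ℝ} (hT : 1 ≤ T) {i : ℕ}
    (hi : i ∈ Finset.range (Nat.log 2 ⌊T⌋₊ + 1)) : (2 : ℝ) ^ i ≤ T := by
  rw [Finset.mem_range, Nat.lt_succ_iff] at hi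
  have hfl : ⌊T⌋₊ ≠ 0 := by
    have : 1 ≤ ⌊T⌋₊ := Nat.le_floor (by exact_mod_cast hT)
    omega
  have h1 : (2 : ℕ) ^ Nat.log 2 ⌊T⌋₊ ≤ ⌊T⌋₊ := Nat.pow_log_le_self 2 hfl
  have h2 : ((2 : ℝ)) ^ Nat.log 2 ⌊T⌋₊ ≤ ⌊T⌋₊ := by exact_mod_cast h1
  calc (2 : ℝ) ^ i ≤ 2 ^ Nat.log 2 ⌊T⌋₊ := pow_le_pow_right₀ (by norm_num) hi
    _ ≤ ⌊T⌋₊ := h2
    _ ≤ T := Nat.floor_le (by linarith)

/-- the number of the classes -/
theorem num_classes {T e : ℝ} (hT : 1 ≤ T) (he : 0 < e) :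
    ((Nat.log 2 ⌊T⌋₊ + 1 : ℕ) : ℝ) ≤ (2 / e + 1) * T ^ e := by
  have hfl : ⌊T⌋₊ ≠ 0 := by
    have : 1 ≤ ⌊T⌋₊ := Nat.le_floor (by exact_mod_cast hT)
    omega
  have h1 : (2 : ℕ) ^ Nat.log 2 ⌊T⌋₊ ≤ ⌊T⌋₊ := Nat.pow_log_le_self 2 hfl
  have h2 : ((2 : ℝ)) ^ Nat.log 2 ⌊T⌋₊ ≤ T := by
    have : ((2 : ℝ)) ^ Nat.log 2 ⌊T⌋₊ ≤ ⌊T⌋₊ := by exact_mod_cast h1
    exact this.trans (Nat.floor_le (by linarith))
  have h3 : (Nat.log 2 ⌊T⌋₊ : ℝ) * Real.log 2 ≤ Real.log T := by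
    rw [← Real.log_pow]
    exact Real.log_le_log (by positivity) h2
  have h4 : Real.log T ≤ T ^ e / e := Real.log_le_rpow_div (by linarith) he
  have h5 := Real.log_two_gt_d9
  have h6 : 0 ≤ (Nat.log 2 ⌊T⌋₊ : ℝ) := Nat.cast_nonneg _
  have h7 : 1 ≤ T ^ e := Real.one_le_rpow hT he.le
  have h8 : (Nat.log 2 ⌊T⌋₊ : ℝ) ≤ 2 * (T ^ e / e) := by nlinarith
  push_cast
  calc (Nat.log 2 ⌊T⌋₊ : ℝ) + 1 ≤ 2 * (T ^ e / e) + T ^ e := add_le_add h8 h7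
    _ = _ := by ring

/-- the bound for one class increases with the length of the multipliers -/
theorem Wb_mono {H P X A A' s g K₁ : ℝ} (hH : 0 < H) (hP : 0 < P) (hX : 0 < X) (hA' : 0 < A')
    (hAA : A' ≤ A) (hs : 0 < s) (hg : 0 < g) :
    Pool.Agent.H29.BH.Wb H P X A' s g K₁ ≤ Pool.Agent.H29.BH.Wb H P X A s g K₁ := by
  have hA : 0 < A := lt_of_lt_of_le hA' hAA
  obtain ⟨m, hm⟩ : ∃ m : ℝ, m = min H (X / g) := ⟨_, rfl⟩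
  have hm0 : 0 < m := by rw [hm]; exact lt_min hH (by positivity)
  obtain ⟨κ, hκ⟩ : ∃ κ : ℝ, κ = 1 + P ^ (-(1 / 2) : ℝ) * K₁ ^ 2 := ⟨_, rfl⟩
  have hκ0 : 0 < κ := by rw [hκ]; positivity
  have key : ∀ B : ℝ, 0 < B → Pool.Agent.H29.BH.Wb H P X B s g K₁ =
      s⁻¹ * (s * B * m) ^ (1 / 2 : ℝ) *
        ((s * m + s ^ 2 * X / P) * (P * κ) * (B * H + X)) ^ (1 / 4 : ℝ) := by
    intro B hB
    unfold Pool.Agent.H29.BH.Wb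
    rw [← hm, ← hκ, mul_assoc (s⁻¹ * _), ← Real.mul_rpow (by positivity) (by positivity)]
    congr 2
    field_simp
  rw [key A' hA', key A hA]
  gcongr

open Pool.Agent.H29.BH (Tb) in
/-- the trivial case -/
theorem triv_le {d P X : ℝ} (hd1 : 1 ≤ d) (hP1 : 1 ≤ P) (hX1 : 1 ≤ X) (hPd : P < d) :
    X ≤ X ^ (1 / 2 : ℝ) * Tb d P * (1 + X / (d * P) ^ (1 / 2 : ℝ)) ^ (1 / 2 : ℝ) := by
  have hd0 : 0 < d := by linarith
  have hP0 : 0 < P := by linarith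
  have hX0 : 0 < X := by linarith
  have h10 : (d * P) ^ (1 / 4 : ℝ) ≤ Tb d P := by
    have h11 : P ^ (1 / 4 : ℝ) = P ^ (1 / 12 : ℝ) * P ^ (1 / 6 : ℝ) := by
      rw [← Real.rpow_add hP0]
      norm_num
    have h12 : d ^ (1 / 4 : ℝ) * d ^ (1 / 12 : ℝ) = d ^ (1 / 3 : ℝ) := by
      rw [← Real.rpow_add hd0]
      norm_num
    have h13 : P ^ (1 / 12 : ℝ) ≤ d ^ (1 / 12 : ℝ) :=
      Real.rpow_le_rpow hP0.le hPd.le (by norm_num)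
    calc (d * P) ^ (1 / 4 : ℝ) = d ^ (1 / 4 : ℝ) * P ^ (1 / 12 : ℝ) * P ^ (1 / 6 : ℝ) := by
          rw [Real.mul_rpow hd0.le hP0.le, h11]
          ring
      _ ≤ d ^ (1 / 4 : ℝ) * d ^ (1 / 12 : ℝ) * P ^ (1 / 6 : ℝ) := by gcongr
      _ = d ^ (1 / 3 : ℝ) * P ^ (1 / 6 : ℝ) := by rw [h12]
      _ ≤ Tb d P := by
          unfold Tb
          have : 0 ≤ d ^ (1 / 4 : ℝ) * P ^ (3 / 16 : ℝ) := by positivity
          linarith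
  have hdP0 : 0 < d * P := by positivity
  have h14 : (X / (d * P) ^ (1 / 2 : ℝ)) ^ (1 / 2 : ℝ) =
      X ^ (1 / 2 : ℝ) / (d * P) ^ (1 / 4 : ℝ) := by
    rw [Real.div_rpow hX0.le (by positivity), ← Real.rpow_mul hdP0.le]
    norm_num
  have h15 : X ^ (1 / 2 : ℝ) * X ^ (1 / 2 : ℝ) = X := by
    rw [← Real.rpow_add hX0]
    norm_num
  calc X = X ^ (1 / 2 : ℝ) * (d * P) ^ (1 / 4 : ℝ) *
        (X / (d * P) ^ (1 / 2 : ℝ)) ^ (1 / 2 : ℝ) := by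
        rw [h14]
        have : (d * P) ^ (1 / 4 : ℝ) ≠ 0 := by positivity
        field_simp
        rw [← sq] at h15
        linarith
    _ ≤ _ := by
        have : 0 < Tb d P := by unfold Tb; positivity
        gcongr
        linarith

/-- the length of the multipliers -/
theorem A_facts {l d P X H g A : ℝ} (hl1 : 1 ≤ l) (hd1 : 1 ≤ d) (hP1 : 1 ≤ P) (hX1 : 1 ≤ X)
    (hH0 : 0 < H) (hlH : 1 ≤ l * H) (hg1 : 1 ≤ g) (hglX : g ≤ l * X)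
    (hA : A = l ^ 3 * max (g * d ^ (1 / 2 : ℝ) / (H * P ^ (1 / 4 : ℝ))) (d ^ (1 / 2 : ℝ))) :
    l ^ 3 * d ^ (1 / 2 : ℝ) ≤ A ∧ 0 < A ∧ A * P ≤ l ^ 5 * (d * P * X) ∧
      ∀ s : ℝ, A * H / (l * d ^ (1 / 2 : ℝ)) ≤ s → l ^ 3 * g ≤ (l * P ^ (1 / 4 : ℝ)) * s := by
  have hl0 : 0 < l := by linarith
  have hd0 : 0 < d := by linarith
  have hP0 : 0 < P := by linarith
  have hX0 : 0 < X := by linarith
  have hg0 : 0 < g := by linarith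
  have hdh0 : 0 < d ^ (1 / 2 : ℝ) := by positivity
  have hdhd : d ^ (1 / 2 : ℝ) ≤ d := by
    calc d ^ (1 / 2 : ℝ) ≤ d ^ (1 : ℝ) := Real.rpow_le_rpow_of_exponent_le hd1 (by norm_num)
      _ = d := Real.rpow_one _
  have hPq1 : 1 ≤ P ^ (1 / 4 : ℝ) := Real.one_le_rpow hP1 (by norm_num)
  have hA2 : l ^ 3 * d ^ (1 / 2 : ℝ) ≤ A := by
    rw [hA]
    exact mul_le_mul_of_nonneg_left (le_max_right _ _) (by positivity)
  have hA3 : l ^ 3 * (g * d ^ (1 / 2 : ℝ) / (H * P ^ (1 / 4 : ℝ))) ≤ A := by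
    rw [hA]
    exact mul_le_mul_of_nonneg_left (le_max_left _ _) (by positivity)
  have hA0 : 0 < A := lt_of_lt_of_le (by positivity) hA2
  have h9 : max (g * d ^ (1 / 2 : ℝ) / (H * P ^ (1 / 4 : ℝ))) (d ^ (1 / 2 : ℝ)) ≤
      l ^ 2 * X * d := by
    refine max_le ?_ ?_
    · rw [div_le_iff₀ (by positivity)]
      calc g * d ^ (1 / 2 : ℝ) ≤ (l * X) * d := mul_le_mul hglX hdhd hdh0.le (by positivity)
        _ ≤ (l * X) * d * (l * H) * P ^ (1 / 4 : ℝ) := by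
            have : 1 ≤ (l * H) * P ^ (1 / 4 : ℝ) := one_le_mul_of_one_le_of_one_le hlH hPq1
            calc (l * X) * d = (l * X) * d * 1 := (mul_one _).symm
              _ ≤ (l * X) * d * ((l * H) * P ^ (1 / 4 : ℝ)) := by gcongr
              _ = _ := by ring
        _ = _ := by ring
    · have h10 : 1 ≤ l ^ 2 * X := one_le_mul_of_one_le_of_one_le (one_le_pow₀ hl1) hX1
      calc d ^ (1 / 2 : ℝ) ≤ d := hdhd
        _ ≤ l ^ 2 * X * d := le_mul_of_one_le_left hd0.le h10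
  refine ⟨hA2, hA0, ?_, fun s hs => ?_⟩
  · calc A * P ≤ (l ^ 3 * (l ^ 2 * X * d)) * P := by
          rw [hA]
          gcongr
      _ = _ := by ring
  · calc l ^ 3 * g = (l * P ^ (1 / 4 : ℝ)) *
          (l ^ 3 * (g * d ^ (1 / 2 : ℝ) / (H * P ^ (1 / 4 : ℝ))) * H / (l * d ^ (1 / 2 : ℝ))) := by
          have hp : P ^ (1 / 4 : ℝ) ≠ 0 := by positivity
          have hdd : d ^ (1 / 2 : ℝ) ≠ 0 := hdh0.ne'
          field_simp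
      _ ≤ (l * P ^ (1 / 4 : ℝ)) * (A * H / (l * d ^ (1 / 2 : ℝ))) := by gcongr
      _ ≤ (l * P ^ (1 / 4 : ℝ)) * s := by gcongr

/-- the number of the multipliers -/
theorem s_fact {c A N e l d H : ℝ} (hc : 0 < c) (hAN0 : 0 < A * N) (hl0 : 0 < l) (hd0 : 0 < d)
    (hA0 : 0 < A) (hH0 : 0 < H) (h9 : c⁻¹ * (A * N) ^ e ≤ l) :
    A * H / (l * d ^ (1 / 2 : ℝ)) ≤ c * (A * N) ^ (-e) * (A * H / Real.sqrt d) := by
  rw [Real.sqrt_eq_rpow]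
  have h10 : l⁻¹ ≤ c * (A * N) ^ (-e) := by
    rw [Real.rpow_neg hAN0.le, inv_le_iff_one_le_mul₀ hl0]
    have h11 : 0 < (A * N) ^ e := by positivity
    calc (1 : ℝ) = (c * ((A * N) ^ e)⁻¹) * (c⁻¹ * (A * N) ^ e) := by field_simp
      _ ≤ (c * ((A * N) ^ e)⁻¹) * l := by gcongr
  calc A * H / (l * d ^ (1 / 2 : ℝ)) = l⁻¹ * (A * H / d ^ (1 / 2 : ℝ)) := by field_simp
    _ ≤ _ := by gcongr

theorem Wb_nonneg {H P X A s g K₁ : ℝ} (hH : 0 < H) (hP : 0 < P) (hX : 0 < X) (hA : 0 < A)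
    (hs : 0 < s) (hg : 0 < g) : 0 ≤ Pool.Agent.H29.BH.Wb H P X A s g K₁ := by
  unfold Pool.Agent.H29.BH.Wb
  have : 0 < min H (X / g) := lt_min hH (by positivity)
  positivity

end Pool.Agent.H54.BHR
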