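import Pool.Agent.H29.BH.Targets3
import Pool.Agent.H54.BHR.HL
import Pool.Agent.H54.BHR.WBA

/-!
# The bound for one window
-/

set_option autoImplicit false

open NumberField NumberField.InfinitePlace NumberField.Units
  NumberField.Units.dirichletUnitTheorem MeasureTheory Set Filter Complex
open scoped nonZeroDivisors ENNReal Topology

namespace Pool.Agent.H54.BHR

open Pool.Agent.H25.HK Pool.Agent.H23.LB Pool.Agent.H23.LC Pool.Agent.H29.DW
open Pool.Agent.H28.RC (Rep ft idl)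
open Pool.Agent.H29.TC (dvs)
open Pool.Agent.H29.BH

section

variable {K : Type} [Field K] [NumberField K]

open scoped Classical in
private theorem pint_mono {ι : Type} [Fintype ι] {M : ι → FI K} {τ₁ τ₂ : ℝ}
    {Φ Ψ : FI K → (InfinitePlace K → ℝ) → ℝ≥0∞}
    (h : ∀ c z τ, τ ∈ Icc τ₁ τ₂ → Φ (M c) (yM K (M c) τ z) ≤ Ψ (M c) (yM K (M c) τ z)) :
    pint M (Icc τ₁ τ₂) Φ ≤ pint M (Icc τ₁ τ₂) Ψ := by
  unfold pint
  refine Finset.sum_le_sum fun c _ => lintegral_mono fun z => ?_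
  exact setLIntegral_mono' measurableSet_Icc fun τ hτ => h c z τ hτ

open scoped Classical in
private theorem pint_sum {ι : Type} [Fintype ι] {M : ι → FI K} (hM : ∀ c, M c ≠ 0) {T : Set ℝ}
    (s : Finset ℕ) (Φ : ℕ → FI K → (InfinitePlace K → ℝ) → ℝ≥0∞)
    (h : ∀ i, ∀ M : FI K, M ≠ 0 →
      Measurable (fun q : ℝ × logSpace K => Φ i M (yM K M q.1 q.2))) :
    pint M T (fun L y => ∑ i ∈ s, Φ i L y) = ∑ i ∈ s, pint M T (Φ i) := by
  unfold pint
  rw [Finset.sum_comm]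
  refine Finset.sum_congr rfl fun c _ => ?_
  have h1 : ∀ z : logSpace K, ∫⁻ τ in T, ∑ i ∈ s, Φ i (M c) (yM K (M c) τ z) =
      ∑ i ∈ s, ∫⁻ τ in T, Φ i (M c) (yM K (M c) τ z) := fun z =>
    lintegral_finset_sum _ fun i _ => (h i (M c) (hM c)).comp measurable_prodMk_right
  simp only [h1]
  refine lintegral_finset_sum _ fun i _ => ?_
  exact Measurable.lintegral_prod_left' (μ := volume.restrict T) (h i (M c) (hM c))

end

open scoped Classical in
/-- (WB) the bound for one window. -/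
theorem pf_R_WB (hWG : R_WG) (hNU : R_NU) (hT2 : R_T2) (hTV : P_TV) (hIE : P_IE) (hGS : K_GS)
    (hNV : K_NV) (hHR : Pool.Agent.H29.TC.T_HR) (hDV : Pool.Agent.H29.TC.T_DV) (hIF : R_IF)
    (hUR : P_UR) (hNB : K_NB) (hPK : A_PK) (hRR : T_RR) : R_WB := by
  intro n hn ε hε hε1
  obtain ⟨e₁, he₁⟩ : ∃ e₁ : ℝ, e₁ = ε / 16 := ⟨_, rfl⟩
  obtain ⟨e, he⟩ : ∃ e : ℝ, e = ε / 64 := ⟨_, rfl⟩
  have he0 : 0 < e := by rw [he]; positivity
  have he10 : 10 * e ≤ 1 := by rw [he]; linarith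
  have he3 : 3 * e ≤ e₁ := by rw [he, he₁]; linarith
  have he₁0 : 0 < e₁ := by rw [he₁]; positivity
  have he₁1 : 16 * e₁ ≤ 1 := by rw [he₁]; linarith
  obtain ⟨C₁, hC₁, h1⟩ := hWG n hn e he0 (by linarith)
  obtain ⟨C₂, hC₂, h2⟩ := hT2 n hn e he0 (by linarith)
  obtain ⟨C₃, hC₃, h3⟩ := hTV n hn e he0 (by linarith)
  obtain ⟨c₄, hc₄, h4⟩ := hIE n hn e he0 (by linarith)
  obtain ⟨C₅, hC₅, h5⟩ := hGS n hn (3 / 4) (by norm_num) (by norm_num)
  obtain ⟨C₆, h6⟩ := hHR n e he0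
  obtain ⟨C₇, h7⟩ := hDV n e he0
  obtain ⟨c₈, hc₈, h8⟩ := hR_lower hUR hNB hNV hPK hRR n hn
  obtain ⟨Q, hQ⟩ : ∃ Q : ℝ, Q = 1 + C₁ + C₂ + C₃ + c₄⁻¹ + |C₆| + C₅ * |C₇| + c₈⁻¹ + 2 / e :=
    ⟨_, rfl⟩
  have hq1 := abs_nonneg C₆
  have hq2 : 0 ≤ C₅ * |C₇| := mul_nonneg (by linarith) (abs_nonneg C₇)
  have hq3 : 0 < c₄⁻¹ := by positivity
  have hq4 : 0 < c₈⁻¹ := by positivity
  have hq5 : 0 < 2 / e := by positivity
  have hQ1 : 1 ≤ Q := by rw [hQ]; linarith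
  obtain ⟨C₀, hC₀⟩ : ∃ C₀ : ℝ, C₀ = Q ^ 2 := ⟨_, rfl⟩
  have hC₀1 : 1 ≤ C₀ := by rw [hC₀]; exact one_le_pow₀ hQ1
  have hQC : ∀ C : ℝ, 0 ≤ C → C ≤ Q → C ^ 2 ≤ C₀ := fun C h0 h => by
    rw [hC₀]
    exact pow_le_pow_left₀ h0 h 2
  refine ⟨16 * C₀ ^ 13, by nlinarith [one_le_pow₀ hC₀1 (n := 13)], ?_⟩
  intro K _ _ hK f hf χ hχ ι _ M hM μ τ₁ P X hQk hP hX hX1
  obtain ⟨d, hd⟩ : ∃ d : ℝ, d = |(discr K : ℝ)| := ⟨_, rfl⟩
  obtain ⟨H, hH⟩ : ∃ H : ℝ, H = classNumber K * regulator K := ⟨_, rfl⟩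
  have hd1 : 1 ≤ d := by
    rw [hd]
    have h1 : (1 : ℤ) ≤ |discr K| := Int.one_le_abs (discr_ne_zero K)
    have h2 : ((1 : ℤ) : ℝ) ≤ ((|discr K| : ℤ) : ℝ) := by exact_mod_cast h1
    rw [Int.cast_abs] at h2
    simpa using h2
  have hN1 : 1 ≤ Nf K f := by
    unfold Nf
    have : 0 < Ideal.absNorm f := Nat.pos_of_ne_zero (by rwa [Ne, Ideal.absNorm_eq_zero_iff])
    exact_mod_cast this
  have hcK1 : 1 ≤ cK χ.k μ := by
    unfold cK
    calc (1 : ℝ) = ∏ _v : InfinitePlace K, (1 : ℝ) := by rw [Finset.prod_const_one]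
      _ ≤ _ := Finset.prod_le_prod (fun v _ => zero_le_one) fun v _ => one_le_pow₀ (by
        unfold cc
        have h1 := abs_nonneg (μ v).im
        have h2 := abs_nonneg ((χ.k v : ℤ) : ℝ)
        linarith)
  have hNP : Nf K f ≤ P := by
    rw [hP]
    exact le_mul_of_one_le_right (by linarith) hcK1
  have hP1 : 1 ≤ P := hN1.trans hNP
  have hd0 : 0 < d := by linarith
  have hP0 : 0 < P := by linarith
  have hX0 : 0 < X := by linarith
  have hH0 : 0 < H := by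
    rw [hH]
    have hreg : 0 < regulator K := regulator_pos K
    have hcl : 0 < (classNumber K : ℝ) := by
      exact_mod_cast Nat.pos_of_ne_zero (classNumber_ne_zero K)
    positivity
  rw [← hd]
  obtain ⟨Y, hY⟩ : ∃ Y : ℝ, Y = X ^ (1 / 2 : ℝ) * Tb d P *
      (1 + X / (d * P) ^ (1 / 2 : ℝ)) ^ (1 / 2 : ℝ) := ⟨_, rfl⟩
  rw [← hY]
  have hTb0 : 0 < Tb d P := by unfold Tb; positivity
  have hY0 : 0 < Y := by rw [hY]; positivity
  obtain ⟨Z, hZ⟩ : ∃ Z : ℝ, Z = d * P * X := ⟨_, rfl⟩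
  rw [← hZ]
  have hdP1 : 1 ≤ d * P := one_le_mul_of_one_le_of_one_le hd1 hP1
  have hZ1 : 1 ≤ Z := by rw [hZ]; exact one_le_mul_of_one_le_of_one_le hdP1 hX1
  have hZ0 : 0 < Z := by linarith
  have hXZ : X ≤ Z := by rw [hZ]; exact le_mul_of_one_le_left hX0.le hdP1
  have hdPZ : d * P ≤ Z := by rw [hZ]; exact le_mul_of_one_le_right (by positivity) hX1
  have hdZ : d ≤ Z := (le_mul_of_one_le_right hd0.le hP1).trans hdPZ
  have hPZ : P ≤ Z := (le_mul_of_one_le_left hP0.le hd1).trans hdPZ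
  obtain ⟨l, hl⟩ : ∃ l : ℝ, l = C₀ * Z ^ e₁ := ⟨_, rfl⟩
  have hZe1 : 1 ≤ Z ^ e₁ := Real.one_le_rpow hZ1 he₁0.le
  have hl1 : 1 ≤ l := by rw [hl]; exact one_le_mul_of_one_le_of_one_le hC₀1 hZe1
  have hl0 : 0 < l := by linarith
  have hl5 : l ^ 5 ≤ C₀ ^ 5 * Z := by
    rw [hl, mul_pow, ← Real.rpow_natCast (Z ^ e₁) 5, ← Real.rpow_mul hZ0.le]
    have : Z ^ (e₁ * ((5 : ℕ) : ℝ)) ≤ Z ^ (1 : ℝ) :=
      Real.rpow_le_rpow_of_exponent_le hZ1 (by push_cast; linarith)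
    rw [Real.rpow_one] at this
    gcongr
  have hll5 : l ≤ l ^ 5 := le_self_pow₀ hl1 (by norm_num)
  have hab : ∀ C u : ℝ, 0 ≤ C → C ≤ Q → 0 ≤ u → u ≤ C₀ ^ 5 * Z ^ 3 → C * u ^ e ≤ l :=
    fun C u hC hCQ hu huZ => by
      rw [hl]
      exact absorb hC (hQC C hC hCQ) hC₀1 hZ1 hu huZ he0 he10 he3
  have hC₀5 : 1 ≤ C₀ ^ 5 := one_le_pow₀ hC₀1
  have hZ3 : Z ≤ Z ^ 3 := le_self_pow₀ hZ1 (by norm_num)
  have hZ2 : Z ^ 2 ≤ Z ^ 3 := pow_le_pow_right₀ hZ1 (by norm_num)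
  have hZC : Z ≤ C₀ ^ 5 * Z ^ 3 := hZ3.trans (le_mul_of_one_le_left (by positivity) hC₀5)
  -- the trivial bound for a sub-integral
  obtain ⟨W₀, hW₀⟩ : ∃ W₀ : ℝ≥0∞, W₀ = pint M (Icc τ₁ (τ₁ + 1))
      (fun L y => ENNReal.ofReal ‖SS χ L y μ‖) := ⟨_, rfl⟩
  have hWtv : W₀ ≤ ENNReal.ofReal (l * X) := by
    have h9 := h3 K hK f hf χ ι M hM μ τ₁ hQk
    rw [hW₀]
    unfold pint
    refine h9.trans (ENNReal.ofReal_le_ofReal ?_)
    rw [← hX, Real.rpow_add hX0, Real.rpow_one]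
    have h10 := hab C₃ X (by linarith) (by rw [hQ]; linarith) hX0.le (hXZ.trans hZC)
    calc C₃ * (X * X ^ e) = (C₃ * X ^ e) * X := by ring
      _ ≤ l * X := mul_le_mul_of_nonneg_right h10 hX0.le
  rw [← hW₀]
  have hl13 : 16 * l ^ 13 ≤ 16 * C₀ ^ 13 * Z ^ ε := by
    rw [hl, mul_pow, ← Real.rpow_natCast (Z ^ e₁) 13, ← Real.rpow_mul hZ0.le]
    have : Z ^ (e₁ * ((13 : ℕ) : ℝ)) ≤ Z ^ ε :=
      Real.rpow_le_rpow_of_exponent_le hZ1 (by push_cast; rw [he₁]; linarith)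
    rw [← mul_assoc]
    gcongr
  rcases lt_or_ge P d with hPd | hdP
  · -- the trivial case
    refine hWtv.trans (ENNReal.ofReal_le_ofReal ?_)
    have h9 : X ≤ Y := hY ▸ triv_le hd1 hP1 hX1 hPd
    have h16 : l ≤ 16 * l ^ 13 := by
      have := le_self_pow₀ hl1 (show 13 ≠ 0 by norm_num)
      have h17 : 0 < l ^ 13 := by positivity
      linarith
    calc l * X ≤ (16 * C₀ ^ 13 * Z ^ ε) * Y :=
          mul_le_mul (h16.trans hl13) h9 hX0.le (by positivity)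
      _ = _ := by ring
  · -- the main case
    have hlH : 1 ≤ l * H := by
      have h9 := h8 K hK f hf χ ι M hM
      rw [← hH] at h9
      have h10 : c₈⁻¹ ≤ l := by
        have h11 := hab c₈⁻¹ 1 hq4.le (by rw [hQ]; linarith) zero_le_one (hZ1.trans hZC)
        rwa [Real.one_rpow, mul_one] at h11
      calc (1 : ℝ) = c₈⁻¹ * c₈ := (inv_mul_cancel₀ hc₈.ne').symm
        _ ≤ l * H := mul_le_mul h10 h9 hc₈.le hl0.le
    have hHl : H ≤ l * d ^ (1 / 2 : ℝ) := by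
      have h9 := h6 K hK
      rw [← hH, ← hd] at h9
      have h10 := hab |C₆| d hq1 (by rw [hQ]; linarith) hd0.le (hdZ.trans hZC)
      calc H ≤ C₆ * d ^ (1 / 2 + e) := h9
        _ ≤ |C₆| * d ^ (1 / 2 + e) := mul_le_mul_of_nonneg_right (le_abs_self _) (by positivity)
        _ = (|C₆| * d ^ e) * d ^ (1 / 2 : ℝ) := by rw [Real.rpow_add hd0]; ring
        _ ≤ l * d ^ (1 / 2 : ℝ) := by gcongr
    have hWt2 : W₀ ≤ ENNReal.ofReal (l * (X * H / d ^ (1 / 2 : ℝ) + d ^ (1 / 2 : ℝ))) := by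
      have h9 := h2 K hK f hf χ ι M hM μ τ₁ X hQk hX hX1
      rw [hW₀]
      refine h9.trans (ENNReal.ofReal_le_ofReal ?_)
      rw [← hH, ← hd, Real.sqrt_eq_rpow]
      have h10 := hab C₂ (d * X) (by linarith) (by rw [hQ]; linarith) (by positivity)
        (le_trans (by rw [hZ]; nlinarith) hZC)
      gcongr
    -- the classes
    have hlX1 : 1 ≤ l * X := one_le_mul_of_one_le_of_one_le hl1 hX1
    have hlXZ : l * X ≤ C₀ ^ 5 * Z ^ 3 := by
      calc l * X ≤ (C₀ ^ 5 * Z) * Z := by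
            refine mul_le_mul (hll5.trans hl5) hXZ hX0.le (by positivity)
        _ = C₀ ^ 5 * Z ^ 2 := by ring
        _ ≤ _ := by gcongr
    have hclass : ∀ g : ℝ, 1 ≤ g → g ≤ l * X →
        pint M (Icc τ₁ (τ₁ + 1)) (fun L y => if ENNReal.ofReal g ≤ 1 + gs f L y ∧
          1 + gs f L y < ENNReal.ofReal (2 * g) then ENNReal.ofReal ‖SS χ L y μ‖ else 0) ≤
        ENNReal.ofReal (16 * l ^ 12 * Y) := by
      intro g hg1 hglX
      have hg0 : 0 < g := by linarith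
      obtain ⟨W, hW⟩ : ∃ W : ℝ≥0∞, W = pint M (Icc τ₁ (τ₁ + 1)) (fun L y =>
        if ENNReal.ofReal g ≤ 1 + gs f L y ∧ 1 + gs f L y < ENNReal.ofReal (2 * g) then
          ENNReal.ofReal ‖SS χ L y μ‖ else 0) := ⟨_, rfl⟩
      rw [← hW]
      have hWW₀ : W ≤ W₀ := by
        rw [hW, hW₀]
        refine pint_mono fun c z τ _ => ?_
        split_ifs
        · exact le_refl _
        · exact zero_le
      have hWne : W ≠ ∞ := ((hWW₀.trans hWtv).trans_lt ENNReal.ofReal_lt_top).ne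
      obtain ⟨A, hA⟩ : ∃ A : ℝ, A = l ^ 3 * max (g * d ^ (1 / 2 : ℝ) / (H * P ^ (1 / 4 : ℝ)))
        (d ^ (1 / 2 : ℝ)) := ⟨_, rfl⟩
      obtain ⟨hA2, hA0, hAPX, hA3⟩ := A_facts hl1 hd1 hP1 hX1 hH0 hlH hg1 hglX hA
      rw [← hZ] at hAPX
      have hAd : d ^ (1 / 2 + e) ≤ A := by
        have h9 := hab 1 d zero_le_one hQ1 hd0.le (hdZ.trans hZC)
        rw [one_mul] at h9
        have h10 : l ≤ l ^ 3 := le_self_pow₀ hl1 (by norm_num)
        calc d ^ (1 / 2 + e) = d ^ e * d ^ (1 / 2 : ℝ) := by rw [Real.rpow_add hd0]; ring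
          _ ≤ l ^ 3 * d ^ (1 / 2 : ℝ) :=
              mul_le_mul_of_nonneg_right (h9.trans h10) (by positivity)
          _ ≤ A := hA2
      obtain ⟨A', S, hA'A, hS, hSc⟩ := h4 K hK f hf A (by rw [← hd]; exact hAd)
      have hA'1 := hS.one
      have hA'0 : 0 < A' := by linarith
      rw [← hH, ← hd] at hSc
      have hAN0 : 0 < A * Nf K f := mul_pos hA0 (by linarith)
      have hs1 : A * H / (l * d ^ (1 / 2 : ℝ)) ≤ S.card := by
        refine (s_fact hc₄ hAN0 hl0 hd0 hA0 hH0 ?_).trans hSc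
        refine hab c₄⁻¹ (A * Nf K f) hq3.le (by rw [hQ]; linarith) hAN0.le ?_
        calc A * Nf K f ≤ A * P := mul_le_mul_of_nonneg_left hNP hA0.le
          _ ≤ l ^ 5 * Z := hAPX
          _ ≤ (C₀ ^ 5 * Z) * Z := mul_le_mul_of_nonneg_right hl5 hZ0.le
          _ = C₀ ^ 5 * Z ^ 2 := by ring
          _ ≤ _ := mul_le_mul_of_nonneg_left hZ2 (by linarith)
      have hs0 : 0 < (S.card : ℝ) := lt_of_lt_of_le (by positivity) hs1
      have hcond : C₁ * X ^ e * g ≤ (l * P ^ (1 / 4 : ℝ)) * S.card := by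
        have h9 := hab C₁ X (by linarith) (by rw [hQ]; linarith) hX0.le (hXZ.trans hZC)
        have h10 : l ≤ l ^ 3 := le_self_pow₀ hl1 (by norm_num)
        calc C₁ * X ^ e * g ≤ l ^ 3 * g :=
              mul_le_mul_of_nonneg_right (h9.trans h10) hg0.le
          _ ≤ _ := hA3 _ hs1
      have hPq1 : 1 ≤ P ^ (1 / 4 : ℝ) := Real.one_le_rpow hP1 (by norm_num)
      have hK1 : 1 ≤ l * P ^ (1 / 4 : ℝ) := one_le_mul_of_one_le_of_one_le hl1 hPq1
      have hWG' := h1 K hK f hf χ hχ ι M hM μ τ₁ P X A' g (l * P ^ (1 / 4 : ℝ)) S hQk hP hX hX1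
        hS hg1 hK1 hcond
      rw [← hW, ← hH] at hWG'
      have hB3 : W ≤ ENNReal.ofReal (l * Wb H P X A S.card g (l * P ^ (1 / 4 : ℝ))) := by
        refine hWG'.trans (ENNReal.ofReal_le_ofReal ?_)
        have h9 : C₁ * (A' * P * X) ^ e ≤ l := by
          refine hab C₁ (A' * P * X) (by linarith) (by rw [hQ]; linarith) (by positivity) ?_
          calc A' * P * X ≤ (A * P) * X :=
                mul_le_mul_of_nonneg_right (mul_le_mul_of_nonneg_right hA'A hP0.le) hX0.le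
            _ ≤ (l ^ 5 * Z) * Z := mul_le_mul hAPX hXZ hX0.le (by positivity)
            _ ≤ ((C₀ ^ 5 * Z) * Z) * Z :=
                mul_le_mul_of_nonneg_right (mul_le_mul_of_nonneg_right hl5 hZ0.le) hZ0.le
            _ = _ := by ring
        have h10 := Wb_mono (K₁ := l * P ^ (1 / 4 : ℝ)) hH0 hP0 hX0 hA'0 hA'A hs0 hg0
        have h11 : 0 ≤ Wb H P X A' S.card g (l * P ^ (1 / 4 : ℝ)) :=
          Wb_nonneg hH0 hP0 hX0 hA'0 hs0 hg0
        exact mul_le_mul h9 h10 h11 hl0.le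
      obtain ⟨B, hB⟩ : ∃ B : ℝ, B = W.toReal := ⟨_, rfl⟩
      have hWb0 : 0 ≤ Wb H P X A S.card g (l * P ^ (1 / 4 : ℝ)) :=
        Wb_nonneg hH0 hP0 hX0 hA0 hs0 hg0
      have hfin := hNU l d P X H g A (l * P ^ (1 / 4 : ℝ)) S.card B hl1 hd1 hdP hX1 hH0 hlH hHl
        hg1 hglX hA (by positivity) le_rfl hs1 (by rw [hB]; exact ENNReal.toReal_nonneg)
        (by rw [hB]; exact ENNReal.toReal_le_of_le_ofReal (by positivity) (hWW₀.trans hWtv))
        (by rw [hB]; exact ENNReal.toReal_le_of_le_ofReal (by positivity) (hWW₀.trans hWt2))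
        (by rw [hB]; exact ENNReal.toReal_le_of_le_ofReal (by positivity) hB3)
      rw [← ENNReal.ofReal_toReal hWne, ← hB]
      refine ENNReal.ofReal_le_ofReal (hfin.trans (le_of_eq ?_))
      rw [hY]
      ring
    -- the sum over the classes
    obtain ⟨R, hR⟩ : ∃ R : Finset ℕ, R = Finset.range (Nat.log 2 ⌊l * X⌋₊ + 1) := ⟨_, rfl⟩
    have hsum : W₀ ≤ ∑ i ∈ R, pint M (Icc τ₁ (τ₁ + 1)) (fun L y =>
        if ENNReal.ofReal ((2 : ℝ) ^ i) ≤ 1 + gs f L y ∧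
          1 + gs f L y < ENNReal.ofReal (2 * (2 : ℝ) ^ i) then
            ENNReal.ofReal ‖SS χ L y μ‖ else 0) := by
      obtain ⟨hi1, hi2, -, -⟩ := hIF K f hf
      rw [← pint_sum hM.1 R (fun i L y =>
        if ENNReal.ofReal ((2 : ℝ) ^ i) ≤ 1 + gs f L y ∧
          1 + gs f L y < ENNReal.ofReal (2 * (2 : ℝ) ^ i) then
            ENNReal.ofReal ‖SS χ L y μ‖ else 0) (fun i M' hM' => ?_), hW₀]
      · refine pint_mono fun c z τ hτ => ?_
        have hgs : 1 + gs f (M c) (yM K (M c) τ z) ≤ ENNReal.ofReal (l * X) := by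
          have h9 := h5 K hK f (M c) (yM K (M c) τ z) hf (hM.1 c)
          rw [(hNV K (M c) (yM K (M c) τ z) (hM.1 c)).2.2.2.2.2 τ z] at h9
          have h10 : gs f (M c) (yM K (M c) τ z) ≤
              ENNReal.ofReal (C₅ * (dvs K f).card * Real.exp (-τ)) := h9
          have h11 : Real.exp (-τ) ≤ X := by
            rw [hX]
            exact Real.exp_le_exp.2 (by linarith [hτ.1])
          have h12 : (1 + C₅ * |C₇|) * P ^ e ≤ l :=
            hab (1 + C₅ * |C₇|) P (by linarith) (by rw [hQ]; linarith) hP0.le (hPZ.trans hZC)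
          have h13 : ((dvs K f).card : ℝ) ≤ |C₇| * P ^ e := by
            calc ((dvs K f).card : ℝ) ≤ C₇ * Nf K f ^ e := h7 K hK f hf
              _ ≤ |C₇| * Nf K f ^ e :=
                  mul_le_mul_of_nonneg_right (le_abs_self _) (by positivity)
              _ ≤ |C₇| * P ^ e := by gcongr
          have h14 : 1 ≤ P ^ e := Real.one_le_rpow hP1 he0.le
          calc 1 + gs f (M c) (yM K (M c) τ z) ≤
                ENNReal.ofReal 1 + ENNReal.ofReal (C₅ * (dvs K f).card * Real.exp (-τ)) := by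
                rw [ENNReal.ofReal_one]
                gcongr
            _ = ENNReal.ofReal (1 + C₅ * (dvs K f).card * Real.exp (-τ)) :=
                (ENNReal.ofReal_add zero_le_one (by positivity)).symm
            _ ≤ ENNReal.ofReal (l * X) := by
                refine ENNReal.ofReal_le_ofReal ?_
                calc 1 + C₅ * (dvs K f).card * Real.exp (-τ) ≤
                      P ^ e * X + C₅ * (|C₇| * P ^ e) * X := by
                      have h15 : 1 ≤ P ^ e * X := one_le_mul_of_one_le_of_one_le h14 hX1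
                      gcongr
                  _ = ((1 + C₅ * |C₇|) * P ^ e) * X := by ring
                  _ ≤ l * X := by gcongr
        obtain ⟨i, hi, hia, hib⟩ := dyadic (le_add_of_nonneg_right zero_le) hlX1 hgs
        rw [← hR] at hi
        calc ENNReal.ofReal ‖SS χ (M c) (yM K (M c) τ z) μ‖ =
              (if ENNReal.ofReal ((2 : ℝ) ^ i) ≤ 1 + gs f (M c) (yM K (M c) τ z) ∧
                1 + gs f (M c) (yM K (M c) τ z) < ENNReal.ofReal (2 * (2 : ℝ) ^ i) then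
                  ENNReal.ofReal ‖SS χ (M c) (yM K (M c) τ z) μ‖ else 0) := by
              rw [if_pos ⟨hia, hib⟩]
          _ ≤ _ := Finset.single_le_sum (f := fun i =>
              (if ENNReal.ofReal ((2 : ℝ) ^ i) ≤ 1 + gs f (M c) (yM K (M c) τ z) ∧
                1 + gs f (M c) (yM K (M c) τ z) < ENNReal.ofReal (2 * (2 : ℝ) ^ i) then
                  ENNReal.ofReal ‖SS χ (M c) (yM K (M c) τ z) μ‖ else 0))
              (fun _ _ => zero_le) hi
      · have m1 := hi1.meas M' hM'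
        have m2 := (hi2 χ μ).meas M' hM'
        refine Measurable.ite ?_ m2 measurable_const
        exact (measurableSet_le measurable_const (measurable_const.add m1)).inter
          (measurableSet_lt (measurable_const.add m1) measurable_const)
    refine hsum.trans ?_
    have hnum : ((R.card : ℕ) : ℝ) ≤ l := by
      rw [hR, Finset.card_range]
      exact (num_classes hlX1 he0).trans
        (hab (2 / e + 1) (l * X) (by positivity) (by rw [hQ]; linarith) (by positivity) hlXZ)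
    calc _ ≤ ∑ _i ∈ R, ENNReal.ofReal (16 * l ^ 12 * Y) := by
          refine Finset.sum_le_sum fun i hi => ?_
          exact hclass _ (one_le_pow₀ (by norm_num)) (pow_le_of_mem hlX1 (by rwa [hR] at hi))
      _ = ENNReal.ofReal (R.card * (16 * l ^ 12 * Y)) := by
          rw [Finset.sum_const, nsmul_eq_mul, ← ENNReal.ofReal_natCast,
            ← ENNReal.ofReal_mul (Nat.cast_nonneg _)]
      _ ≤ _ := by
          refine ENNReal.ofReal_le_ofReal ?_
          calc (R.card : ℝ) * (16 * l ^ 12 * Y) ≤ l * (16 * l ^ 12 * Y) := by gcongr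
            _ = (16 * l ^ 13) * Y := by ring
            _ ≤ (16 * C₀ ^ 13 * Z ^ ε) * Y := by gcongr

end Pool.Agent.H54.BHR
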